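import Pool.Agent.TH60.FP.Final
import Pool.Agent.TH60.FP.Ext
import Pool.Agent.TH60.FP.Line
import Pool.Agent.TH60.FP.Main
import Pool.Agent.TH60.FP.Strip
import Pool.Agent.TH60.FP.Trans
import Pool.Agent.TH60.FP.Mid
import Pool.Agent.TH60.FP.Dist
import Pool.Agent.TH60.FP.Cen
import Pool.Agent.TH60.FP.Sel
import Pool.Agent.TH60.FP.Bnd

/-!
# Flats of a CAT(0) group without `ℤ²` have at least quadratic complexity

Let `G` act geometrically on a proper CAT(0) space `X` and let `f` be a flat, i.e. an isometric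
embedding of the Euclidean plane.  Choose a lattice `ℤ b₁ + ℤ b₂` in the plane, a point `x₀` of `X`
and for every lattice point `z` an element `φ z` of `G` such that `φ z • x₀` is at distance at most
`r` from the point `z` of the flat.  The pattern of radius `R` at `z` is the family of the elements
`(φ z)⁻¹ * φ (z + u)`, `u` in the square of radius `R`: it describes the flat near `z` up to `G`.

Theorem: if for one `q ≥ 1` there are fewer than `(q + 1) ^ 2` patterns of radius `12 q`, then `G`
contains `ℤ²`.  So if `G` has a flat but no subgroup `ℤ²` then for every flat and all choices the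
number of patterns of radius `R` grows at least quadratically in `R`.

CAT(0) is expressed by the inequality of Bruhat and Tits, which for complete spaces is equivalent to
the condition on geodesic triangles.
-/

set_option autoImplicit false

namespace Pool.Agent.Results.MP_140312_al.QuadraticComplexity

open Pool.Agent.TH60.FP

/-- The Euclidean plane. -/
abbrev Plane : Type := EuclideanSpace ℝ (Fin 2)

/-- The inequality of Bruhat and Tits: a complete metric space is CAT(0) if and only if any two
points `p`, `q` have a midpoint `m` such that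
`d(x, m)² ≤ (d(x, p)² + d(x, q)²) / 2 - d(p, q)² / 4` for all `x`. -/
def BruhatTits (X : Type*) [MetricSpace X] : Prop := ∀ p q : X, ∃ m : X, ∀ x : X,
  dist x m ^ 2 ≤ (dist x p ^ 2 + dist x q ^ 2) / 2 - dist p q ^ 2 / 4

/-- The pattern of radius `R` of `φ` at the lattice point `z`. -/
def pattern {G : Type*} [Group G] (φ : ℤ × ℤ → G) (R : ℕ) (z : ℤ × ℤ) :
    {u : ℤ × ℤ // |u.1| ≤ R ∧ |u.2| ≤ R} → G := fun u => (φ z)⁻¹ * φ (z + u.1)

/-- Let `G` act geometrically (by isometries, properly discontinuously, cocompactly) on a proper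
CAT(0) space `X`, let `f` be an isometric embedding of the Euclidean plane, `b₁`, `b₂` linearly
independent and `φ z • x₀` at distance at most `r` from `f (z.1 • b₁ + z.2 • b₂)` for all
`z : ℤ × ℤ`.  If for some `q ≥ 1` the number of patterns of radius `12 q` is smaller than
`(q + 1) ^ 2`, then `G` contains a subgroup isomorphic to `ℤ²`. -/
theorem result {X : Type*} [MetricSpace X] [ProperSpace X] (hX : BruhatTits X)
    {G : Type*} [Group G] [MulAction G X] [IsIsometricSMul G X] [ProperlyDiscontinuousSMul G X]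
    (hcc : ∃ K : Set X, IsCompact K ∧ ∀ x : X, ∃ g : G, g • x ∈ K)
    (f : Plane → X) (hf : Isometry f) (b₁ b₂ : Plane) (hb : LinearIndependent ℝ ![b₁, b₂])
    (x₀ : X) (r : ℝ) (φ : ℤ × ℤ → G)
    (hφ : ∀ z : ℤ × ℤ, dist (φ z • x₀) (f (z.1 • b₁ + z.2 • b₂)) ≤ r)
    (q : ℕ) (hq : 0 < q) (hP : (Set.range (pattern φ (12 * q))).encard < ((q + 1) ^ 2 : ℕ)) :
    ∃ ψ : Multiplicative (ℤ × ℤ) →* G, Function.Injective ψ := by
  have hdd := t_dd t_strip (t_trans t_strip) (t_mid t_strip)
  refine Final.main (t_per (t_main t_ext t_line))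
    (t_close hdd t_cen t_sel (t_bnd hdd t_cen t_park)) hX hcc f hf b₁ b₂ hb x₀ r φ hφ q hq ?_
  let Θ : ({u : ℤ × ℤ // |u.1| ≤ ((12 * q : ℕ) : ℤ) ∧ |u.2| ≤ ((12 * q : ℕ) : ℤ)} → G) →
      ({x : ℤ × ℤ // Bx 0 (12 * q) x} → G) := fun P x => P ⟨x.1, by
    have h := (Final.Bx_zero _ _).1 x.2
    push_cast
    exact ⟨abs_le.2 ⟨h.1, h.2.1⟩, abs_le.2 ⟨h.2.2.1, h.2.2.2⟩⟩⟩
  have h1 : Set.range (fun z : ℤ × ℤ => fun x : {x : ℤ × ℤ // Bx 0 (12 * q) x} =>
      (φ z)⁻¹ * φ (z + x.1)) = Θ '' Set.range (pattern φ (12 * q)) := by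
    rw [← Set.range_comp]
    rfl
  rw [h1]
  exact (Set.encard_image_le _ _).trans_lt hP

end Pool.Agent.Results.MP_140312_al.QuadraticComplexity
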