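import Pool.Agent.TH38.RK.Basic
import Pool.Agent.TH38.RK.Kak
import Pool.Agent.TH38.RK.Ptol
import Pool.Agent.TH38.RK.Path
import Pool.Agent.TH38.RK.Arc
import Pool.Agent.TH38.RK.Zas
import Pool.Agent.TH38.RK.Bdd
import Pool.Agent.TH38.RK.Tree
import Pool.Agent.TH38.RK.Act
import Pool.Agent.TH38.RK.Unb
import Pool.Agent.TH38.RK.Norm
import Pool.Agent.TH38.RK.Full4
import Pool.Agent.TH38.RK.Main5

/-!
# Residually Kleinian groups without `ℤ²`

`PSL` is `PSL(2,ℂ)`, `Disc Γ` says that `Γ` is a discrete subgroup, `NoZ2 G` that `G` has no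
subgroup isomorphic to `ℤ²`, and `SmallTreeAction G` that `G` acts by isometries and without a
global fixed point on an `ℝ`-tree such that the pointwise stabiliser of any two distinct points is
abelian.
-/

set_option autoImplicit false

namespace Pool.Agent.Results.MP_140312_al.ResiduallyKleinianGroups

open Pool.Agent.TH38.RK

/-- Let `G` be a finitely generated torsion-free non-abelian group without subgroups isomorphic to
`ℤ²`, such that every element `g ≠ 1` survives in some homomorphism onto a discrete subgroup of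
`PSL(2,ℂ)`.  Then `G` is isomorphic to a discrete subgroup of `PSL(2,ℂ)`, or `G` acts by isometries
and without a global fixed point on an `ℝ`-tree such that the pointwise stabiliser of any two
distinct points is abelian. -/
theorem result (G : Type) [Group G] (hfg : Group.FG G)
    (htf : ∀ g : G, g ≠ 1 → ¬ IsOfFinOrder g) (hna : ∃ a b : G, a * b ≠ b * a) (hZ : NoZ2 G)
    (hres : ∀ g : G, g ≠ 1 → ∃ ρ : G →* PSL, Disc ρ.range ∧ ρ g ≠ 1) :
    (∃ ρ : G →* PSL, Disc ρ.range ∧ Function.Injective ρ) ∨ SmallTreeAction G := by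
  obtain ⟨S, hS⟩ := hfg.out
  have hcount : Countable G := countable_of_closure S hS
  have hne : ∃ g : G, g ≠ 1 := by
    obtain ⟨a, b, hab⟩ := hna
    exact ⟨a, fun h => hab (by rw [h, one_mul, mul_one])⟩
  obtain ⟨ρ, hdisc, hfaith⟩ := full4 G hcount htf hZ hne hres
  exact main5 basic (bounded basic zassenhaus)
    (unbounded basic (tree basic ptolemy (path kak)) (action basic) (arc kak) zassenhaus)
    G hfg (csa5 cent norm G htf ρ hdisc hfaith) hna ρ hdisc hfaith

end Pool.Agent.Results.MP_140312_al.ResiduallyKleinianGroups
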